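import Pool.Agent.HomW.Iso
import Pool.Agent.HomT.Grid

/-!
# Good graphs with the isoperimetric property (helper32)

The graph is the torus of cells `gX N p` of `HomT/Grid`. For sets `bc`, `br` of columns and rows the
region `reg bc br` consists of all cells which are not in a column of `bc` and a row of `br`.
-/

set_option autoImplicit false

namespace Pool.Agent.HomW

open Finset Classical Pool.Agent.HomV
open Pool.Agent.HomT (GU gX dr io opp ball cell_const exists_port gX_good ball_card walk_ball)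

/-- all cells which are not in a column of `bc` and a row of `br` -/
noncomputable def reg (N p : ℕ) [NeZero N] [NeZero p] (bc br : Finset (ZMod N)) :
    Finset (GU N p) :=
  univ.filter fun x => ¬ (x.1.1 ∈ bc ∧ x.1.2 ∈ br)

theorem mem_reg {N p : ℕ} [NeZero N] [NeZero p] {bc br : Finset (ZMod N)} {x : GU N p} :
    x ∈ reg N p bc br ↔ ¬ (x.1.1 ∈ bc ∧ x.1.2 ∈ br) := by
  unfold reg
  rw [Finset.mem_filter]
  exact ⟨fun h => h.2, fun h => ⟨Finset.mem_univ _, h⟩⟩

theorem line_const' {N : ℕ} [NeZero N] {α : Type*} {f : ZMod N → α} (h : ∀ j, f j = f (j + 1))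
    (j j' : ZMod N) : f j = f j' := by
  have h0 : ∀ m : ℕ, f 0 = f (m : ZMod N) := by
    intro m
    induction m with
    | zero => simp
    | succ m ih =>
      rw [ih, h]
      push_cast
      rfl
  have h1 : ∀ j : ZMod N, f 0 = f j := by
    intro j
    have := h0 j.val
    rwa [ZMod.natCast_zmod_val] at this
  rw [← h1 j, h1 j']

/-- a property of cells which is preserved between neighbouring cells of the region -/
theorem reg_const {N : ℕ} [NeZero N] {bc br : Finset (ZMod N)} (hbc : ∃ i, i ∉ bc)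
    (hbr : ∃ j, j ∉ br) {s : ZMod N × ZMod N → Prop}
    (h : ∀ g c, ¬ (g.1 ∈ bc ∧ g.2 ∈ br) → ¬ ((g + dr N c).1 ∈ bc ∧ (g + dr N c).2 ∈ br) →
      (s g ↔ s (g + dr N c))) (g g' : ZMod N × ZMod N) (hg : ¬ (g.1 ∈ bc ∧ g.2 ∈ br))
    (hg' : ¬ (g'.1 ∈ bc ∧ g'.2 ∈ br)) : s g ↔ s g' := by
  obtain ⟨i₀, hi₀⟩ := hbc
  obtain ⟨j₀, hj₀⟩ := hbr
  have hcol : ∀ i, i ∉ bc → ∀ j j', s (i, j) = s (i, j') := by
    intro i hi
    refine line_const' (f := fun j => s (i, j)) fun j => ?_
    have h2 : ((i, j) : ZMod N × ZMod N) + dr N 2 = (i, j + 1) := by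
      refine Prod.ext ?_ ?_ <;> simp [dr]
    have h1 := h (i, j) 2 (fun h => hi h.1) (by
      rw [h2]
      exact fun h => hi h.1)
    rw [h2] at h1
    exact propext h1
  have hrow : ∀ j, j ∉ br → ∀ i i', s (i, j) = s (i', j) := by
    intro j hj
    refine line_const' (f := fun i => s (i, j)) fun i => ?_
    have h2 : ((i, j) : ZMod N × ZMod N) + dr N 0 = (i + 1, j) := by
      refine Prod.ext ?_ ?_ <;> simp [dr]
    have h1 := h (i, j) 0 (fun h => hj h.2) (by
      rw [h2]
      exact fun h => hj h.2)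
    rw [h2] at h1
    exact propext h1
  have key : ∀ g : ZMod N × ZMod N, ¬ (g.1 ∈ bc ∧ g.2 ∈ br) → s g = s (i₀, j₀) := by
    rintro ⟨i, j⟩ hg
    by_cases hi : i ∈ bc
    · have hj : j ∉ br := fun hj => hg ⟨hi, hj⟩
      exact (hrow j hj i i₀).trans (hcol i₀ hi₀ j j₀)
    · exact (hcol i hi j j₀).trans (hrow j₀ hj₀ i i₀)
  rw [key g hg, key g' hg']

theorem reg_good {N : ℕ} [Fact (1 < N)] [NeZero N] (Q p : ℕ) [Fact p.Prime] [NeZero p]
    (hpQ : 5 * Q + 10 ≤ p) {bc br : Finset (ZMod N)} (hbc : ∃ i, i ∉ bc) (hbr : ∃ j, j ∉ br) :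
    Good (gX N p) (reg N p bc br) Q := by
  refine ⟨(gX_good Q p hpQ).tri, (gX_good Q p hpQ).c4, ?_, ?_, ?_⟩
  · intro i hi
    have h1 := (Pool.Agent.HomT.affX_good Q p hpQ).deg i.2 (Finset.mem_univ _)
    refine h1.trans (Finset.card_le_card_of_injOn (fun j => (i.1, j)) ?_ ?_)
    · intro j hj
      have hj' := (Finset.mem_filter.1 (Finset.mem_coe.1 hj)).2
      have hr : (i.1, j) ∈ reg N p bc br := by
        rw [mem_reg] at hi ⊢
        exact hi
      exact Finset.mem_coe.2 (Finset.mem_filter.2 ⟨hr, Or.inl ⟨rfl, hj'⟩⟩)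
    · intro a _ b _ h
      exact congrArg Prod.snd h
  · intro S hS T hT hTne hRne
    by_contra hcon
    push Not at hcon
    have key : ∀ i j, i ∉ S → j ∉ S → j ∈ reg N p bc br → (gX N p).Adj i j → i ∈ T → j ∈ T := by
      intro i j _ hj hjr hij hi
      by_contra hjT
      exact hcon i hi j (by simp [hj, hjT, hjr]) hij
    have side : ∀ i j, i ∉ S → j ∉ S → i ∈ reg N p bc br → j ∈ reg N p bc br →
        (gX N p).Adj i j → (i ∈ T ↔ j ∈ T) :=
      fun i j hi hj hir hjr hij => ⟨key i j hi hj hjr hij, key j i hj hi hir hij.symm⟩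
    -- in a cell
    have cell : ∀ (g : ZMod N × ZMod N) (a b : AffU p), ¬ (g.1 ∈ bc ∧ g.2 ∈ br) →
        (g, a) ∉ S → (g, b) ∉ S → ((g, a) ∈ T ↔ (g, b) ∈ T) := by
      intro g a b hg ha hb
      have hSg : (univ.filter fun a : AffU p => ((g, a) : GU N p) ∈ S).card < Q := by
        refine lt_of_le_of_lt (Finset.card_le_card_of_injOn (fun j => (g, j)) ?_ ?_) hS
        · intro j hj
          exact Finset.mem_coe.2 (Finset.mem_filter.1 (Finset.mem_coe.1 hj)).2
        · intro a _ b _ h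
          exact congrArg Prod.snd h
      refine cell_const Q p hpQ (univ.filter fun a : AffU p => ((g, a) : GU N p) ∈ S) hSg
        (fun a => (g, a) ∈ T) (fun i j hi hj hij => ?_) a b ?_ ?_
      · refine side _ _ (fun h => hi ?_) (fun h => hj ?_) (mem_reg.2 hg) (mem_reg.2 hg)
          (Or.inl ⟨rfl, hij⟩)
        · exact Finset.mem_filter.2 ⟨Finset.mem_univ _, h⟩
        · exact Finset.mem_filter.2 ⟨Finset.mem_univ _, h⟩
      · exact fun h => ha (Finset.mem_filter.1 h).2
      · exact fun h => hb (Finset.mem_filter.1 h).2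
    have tor : ∀ g c, ¬ (g.1 ∈ bc ∧ g.2 ∈ br) → ¬ ((g + dr N c).1 ∈ bc ∧ (g + dr N c).2 ∈ br) →
        ((∀ a : AffU p, (g, a) ∉ S → (g, a) ∈ T) ↔
        (∀ a : AffU p, (g + dr N c, a) ∉ S → (g + dr N c, a) ∈ T)) := by
      intro g c hg hg'
      obtain ⟨x, hx1, hx2⟩ := exists_port S (by omega) g c (N := N) (p := p)
      have hs := side _ _ hx1 hx2 (mem_reg.2 hg) (mem_reg.2 hg') (Or.inr ⟨c, x, rfl, rfl⟩)
      constructor
      · intro h a ha
        exact (cell _ _ _ hg' hx2 ha).1 (hs.1 (h _ hx1))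
      · intro h a ha
        exact (cell _ _ _ hg hx1 ha).1 (hs.2 (h _ hx2))
    have hall := reg_const hbc hbr
      (s := fun g => ∀ a : AffU p, (g, a) ∉ S → (g, a) ∈ T) tor
    obtain ⟨i, hi⟩ := hTne
    obtain ⟨j, hj⟩ := hRne
    have hi' : i ∈ reg N p bc br ∧ i ∉ S := by simpa using hT hi
    have hj' : (j ∈ reg N p bc br ∧ j ∉ S) ∧ j ∉ T := by simpa using hj
    have hir := mem_reg.1 hi'.1
    have hjr := mem_reg.1 hj'.1.1
    have h1 : ∀ a : AffU p, (i.1, a) ∉ S → (i.1, a) ∈ T :=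
      fun a ha => (cell i.1 i.2 a hir hi'.2 ha).1 hi
    exact hj'.2 ((hall i.1 j.1 hir hjr).1 h1 j.2 hj'.1.2)
  · obtain ⟨i₀, hi₀⟩ := hbc
    exact ⟨((i₀, 0), Sum.inl (0, 0)), mem_reg.2 fun h => hi₀ h.1⟩

/-- the size of the complement -/
theorem card_compl_reg {N : ℕ} [NeZero N] (p : ℕ) [NeZero p] {m : ℕ}
    {bc br : Finset (ZMod N)} (hbc : bc.card ≤ m) (hbr : br.card ≤ m) :
    (univ.filter fun x : GU N p => x.1.1 ∈ bc ∧ x.1.2 ∈ br).card ≤
      m * m * Fintype.card (AffU p) := by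
  have hsub : (univ.filter fun x : GU N p => x.1.1 ∈ bc ∧ x.1.2 ∈ br) ⊆
      (bc ×ˢ br) ×ˢ (univ : Finset (AffU p)) := by
    rintro ⟨⟨i, j⟩, a⟩ h
    have h' := (Finset.mem_filter.1 h).2
    rw [Finset.mem_product, Finset.mem_product]
    exact ⟨h', Finset.mem_univ _⟩
  have hcard := Finset.card_le_card hsub
  rw [Finset.card_product, Finset.card_product, Finset.card_univ] at hcard
  exact hcard.trans (Nat.mul_le_mul_right _ (Nat.mul_le_mul hbc hbr))

theorem reg_iso {N : ℕ} [Fact (1 < N)] [NeZero N] (Q p : ℕ) [Fact p.Prime] [NeZero p]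
    (hpQ : 5 * Q + 10 ≤ p) (k L : ℕ) (hN : N = 2 * (L * (k * 5 ^ k)) + 2) :
    ∀ (n : ℕ) (bc br : Finset (ZMod N)), bc.card + n * (k * 5 ^ k) ≤ L * (k * 5 ^ k) →
      br.card + n * (k * 5 ^ k) ≤ L * (k * 5 ^ k) → Iso (gX N p) Q k n (reg N p bc br) := by
  have hex : ∀ s : Finset (ZMod N), s.card ≤ L * (k * 5 ^ k) → ∃ i, i ∉ s := by
    intro s hs
    by_contra hno
    push Not at hno
    have h1 : s = univ := Finset.eq_univ_iff_forall.2 hno
    rw [h1, Finset.card_univ, ZMod.card] at hs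
    omega
  intro n
  induction n with
  | zero =>
    intro bc br h1 h2
    exact reg_good Q p hpQ (hex bc (by omega)) (hex br (by omega))
  | succ n ih =>
    intro bc br h1 h2
    refine ⟨reg_good Q p hpQ (hex bc (by omega)) (hex br (by omega)), fun T hT => ?_⟩
    set m := k * 5 ^ k with hm
    have hn1 : (n + 1) * m = n * m + m := by ring
    set Bad : Finset (ZMod N × ZMod N) := T.biUnion fun c => ball N k c.1 with hBad
    have hBadc : Bad.card ≤ m := by
      have h1 : Bad.card ≤ T.card * 5 ^ k :=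
        Finset.card_biUnion_le_card_mul _ _ _ fun x _ => ball_card N k x.1
      exact h1.trans (Nat.mul_le_mul_right _ hT)
    set bc' := bc ∪ Bad.image Prod.fst with hbc'
    set br' := br ∪ Bad.image Prod.snd with hbr'
    have hc1 : bc'.card ≤ bc.card + m := (Finset.card_union_le _ _).trans
      (Nat.add_le_add_left (Finset.card_image_le.trans hBadc) _)
    have hc2 : br'.card ≤ br.card + m := (Finset.card_union_le _ _).trans
      (Nat.add_le_add_left (Finset.card_image_le.trans hBadc) _)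
    refine ⟨reg N p bc' br', ?_, ?_, ?_, ih bc' br' (by omega) (by omega)⟩
    · intro x hx
      rw [mem_reg] at hx ⊢
      exact fun h => hx ⟨Finset.mem_union_left _ h.1, Finset.mem_union_left _ h.2⟩
    · have hA : 0 < Fintype.card (AffU p) := Fintype.card_pos_iff.2 ⟨Sum.inl (0, 0)⟩
      have hU : Fintype.card (GU N p) = N * N * Fintype.card (AffU p) := by
        rw [Fintype.card_prod, Fintype.card_prod, ZMod.card]
      have e1 : ∀ s : Finset (GU N p), (∀ x ∈ s, x ∈ reg N p bc br ∧ x ∉ reg N p bc' br') →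
          s.card ≤ L * m * (L * m) * Fintype.card (AffU p) := by
        intro s hs
        refine (Finset.card_le_card ?_).trans
          (card_compl_reg p (bc := bc') (br := br') (m := L * m) (by omega) (by omega))
        intro x hx
        have hx' := hs x hx
        rw [Finset.mem_filter]
        refine ⟨Finset.mem_univ _, ?_⟩
        by_contra h
        exact hx'.2 (mem_reg.2 h)
      have e2 : (univ.filter fun x : GU N p => x.1.1 ∈ bc ∧ x.1.2 ∈ br).card ≤
          L * m * (L * m) * Fintype.card (AffU p) :=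
        card_compl_reg p (m := L * m) (by omega) (by omega)
      have e3 : (univ.filter fun x : GU N p => x.1.1 ∈ bc ∧ x.1.2 ∈ br).card +
          (reg N p bc br).card = Fintype.card (GU N p) := by
        rw [← Finset.card_univ]
        exact Finset.card_filter_add_card_filter_not _
      rw [hU] at e3
      have e4 : 4 * (L * m * (L * m)) < N * N := by
        rw [hN]
        nlinarith
      have e5 := Nat.mul_lt_mul_of_pos_right e4 hA
      have e6 : 4 * (L * m * (L * m)) * Fintype.card (AffU p) =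
          4 * (L * m * (L * m) * Fintype.card (AffU p)) := by ring
      refine lt_of_le_of_lt (Nat.mul_le_mul_left 3 (e1 _ fun x hx => by simpa using hx)) ?_
      omega
    · rintro c hc x hx ⟨w, hw⟩
      rw [mem_reg] at hx
      have h3 : x.1 ∈ Bad := by
        rw [hBad, Finset.mem_biUnion]
        exact ⟨c, hc, walk_ball w k hw⟩
      exact hx ⟨Finset.mem_union_right _ (Finset.mem_image_of_mem _ h3),
        Finset.mem_union_right _ (Finset.mem_image_of_mem _ h3)⟩

theorem exists_iso (Q k n : ℕ) :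
    ∃ (U : Type) (_ : Fintype U) (X : SimpleGraph U), Iso X Q k n univ := by
  obtain ⟨p, hp, hpp⟩ := Nat.exists_infinite_primes (5 * Q + 15)
  have : Fact p.Prime := ⟨hpp⟩
  have : NeZero p := ⟨hpp.ne_zero⟩
  have : Fact (1 < 2 * (n * (k * 5 ^ k)) + 2) := ⟨by omega⟩
  have : NeZero (2 * (n * (k * 5 ^ k)) + 2) := ⟨by omega⟩
  refine ⟨GU (2 * (n * (k * 5 ^ k)) + 2) p, inferInstance, gX (2 * (n * (k * 5 ^ k)) + 2) p, ?_⟩
  have h := reg_iso (N := 2 * (n * (k * 5 ^ k)) + 2) Q p (by omega) k n rfl n ∅ ∅ (by simp)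
    (by simp)
  have h1 : reg (2 * (n * (k * 5 ^ k)) + 2) p ∅ ∅ = univ :=
    Finset.eq_univ_iff_forall.2 fun x => mem_reg.2 (by simp)
  rwa [h1] at h

end Pool.Agent.HomW
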