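import Pool.Agent.HomW.LabY

/-!
# Sparse graphs contain no homological copy over a good set of live vertices (helper61)

Copies of `no_homX` (HomV/Main) and `no_copy_sparse` (HomI/Main) with a set `Y` of live vertices; `glue_copy` is the
gluing step, to be used here and in `Res`.
-/

set_option autoImplicit false

namespace Pool.Agent.HomW

open Finset Classical Pool.Agent.HomV Pool.Agent.HomI

theorem no_homX (k : ℕ) : ∃ Q : ℕ, ∀ {U : Type} [Fintype U] (X : SimpleGraph U) (Y : Finset U),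
    Good X Y Q → ∀ {V : Type} [Fintype V] (F : SimpleGraph V), InClass k F →
      IsEmpty (HomX X Y F) := by
  obtain ⟨Q, hQ⟩ := key k (3 * k)
  refine ⟨Q + k + 1, fun {U} _ X Y hG {V} _ F hF => ?_⟩
  induction hF with
  | near F h =>
    obtain ⟨E⟩ := h
    refine ⟨fun H => ?_⟩
    obtain ⟨H', hf, _⟩ := homX_sdiff H (E.apex.image H.f)
    have hT : (E.apex.image H.f).card ≤ k := card_image_le.trans E.apex_card
    have hG' := hG.sdiff (E.apex.image H.f) hT (by omega)
    obtain ⟨D, _, M, hM⟩ := exists_pic hG' (by omega) E H' (by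
      intro a ha
      rw [hf, mem_sdiff]
      exact fun h => h.2 (mem_image_of_mem _ ha))
    exact hQ X _ (hG'.mono (by omega)) D M hM
  | sum F A B hAB hadj hcard hA hB ihA ihB =>
    refine ⟨fun H => ?_⟩
    rcases homX_torso hG (k := k) (by omega) H A B hAB hadj hcard with h | h
    · exact ihA.false h.some
    · exact ihB.false h.some

variable {U : Type} [Fintype U] {V : Type} [Fintype V] {X : SimpleGraph U} {Y : Finset U} {Q : ℕ}

/-- the gluing step -/
theorem glue_copy (hQ : 2 < Q) (hG : Good X Y Q) {F : SimpleGraph V} (A B : Set V)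
    (hAB : A ∪ B = Set.univ)
    (hadj : ∀ u v, F.Adj u v → (u ∈ A ∧ v ∈ A) ∨ (u ∈ B ∧ v ∈ B))
    (hcomplete : ∀ u ∈ A ∩ B, ∀ v ∈ A ∩ B, u ≠ v → F.Adj u v)
    (ihA : ∀ H : HomX X Y (ind F A), (∀ a b, (ind F A).Adj a b → X.Adj (H.f a) (H.f b)) → False)
    (ihB : ∀ H : HomX X Y (ind F B), (∀ a b, (ind F B).Adj a b → X.Adj (H.f a) (H.f b)) → False)
    (H : HomX X Y F) (hf : ∀ a b, F.Adj a b → X.Adj (H.f a) (H.f b)) : False := by
  have h1 : (A ∩ B).ncard ≤ 2 := ncard_le_two hG.tri H.f _ fun u hu v hv huv =>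
    hf u v (hcomplete u hu v hv huv)
  have hcomplete' : ∀ u ∈ B ∩ A, ∀ v ∈ B ∩ A, u ≠ v → F.Adj u v := fun u hu v hv =>
    hcomplete u ⟨hu.2, hu.1⟩ v ⟨hv.2, hv.1⟩
  have hT : ∀ (C D : Set V), (∀ u ∈ C ∩ D, ∀ v ∈ C ∩ D, u ≠ v → F.Adj u v) → ∀ a b,
      (torso F C D).Adj a b → F.Adj a b := by
    intro C D hCD a b hab
    rw [torso_eq_ind hCD] at hab
    exact hab.1
  rw [← torso_eq_ind hcomplete] at ihA
  rw [← torso_eq_ind hcomplete'] at ihB
  rcases homX_torso' hG hQ H A B hAB hadj h1 with ⟨H', hH'⟩ | ⟨H', hH'⟩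
  · exact ihA H' fun a b hab => by
      rw [hH']
      exact hf a b (hT A B hcomplete a b hab)
  · exact ihB H' fun a b hab => by
      rw [hH']
      exact hf a b (hT B A hcomplete' a b hab)

theorem no_copy_sparse {k : ℕ} (hQ1 : k ≤ Q) (hQ2 : (k - 1) ^ 2 ≤ Q) (hQ3 : 2 < Q)
    (hG : Good X Y Q)
    (hQ : ∀ {V : Type} [Fintype V] (F : SimpleGraph V), InClass k F → IsEmpty (HomX X Y F))
    {F : SimpleGraph V} (hF : Sparse k F) :
    ∀ H : HomX X Y F, (∀ a b, F.Adj a b → X.Adj (H.f a) (H.f b)) → False := by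
  induction hF with
  | minor F h => exact fun H _ => (hQ F h).false H
  | immersion F h => exact fun H hf => no_copy hQ1 hQ2 hG h H hf
  | glue F A B hAB hadj hcomplete hA hB ihA ihB =>
    exact fun H hf => glue_copy hQ3 hG A B hAB hadj hcomplete ihA ihB H hf

end Pool.Agent.HomW
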