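import Pool.Agent.HomI.Lab
import Pool.Agent.HomI.Main

/-!
# Cuts in a graph with a homological copy of `X` over the live vertices `Y`

The same as `HomI/Lab` and `no_copy` of `HomI/Main` with a live set `Y` in place of `univ`.
-/

set_option autoImplicit false

namespace Pool.Agent.HomW

open Finset Classical Pool.Agent.HomV Pool.Agent.HomI

variable {U : Type} [Fintype U] {V : Type} [Fintype V] {X : SimpleGraph U} {Y : Finset U} {Q : ℕ}

private theorem z2c (a : ZMod 2) : a = 0 ∨ a = 1 := by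
  revert a; decide

private theorem z2_add_ne {a b : ZMod 2} : a + b ≠ 0 ↔ a ≠ b := by
  revert a b; decide

theorem card_dl (hG : Good X Y Q) (r : U → ZMod 2) {i j : U} (hi : i ∈ Y) (hj : j ∈ Y)
    (hij : r i ≠ r j) : Q ≤ (univ.filter fun e : Sym2 U => dl X Y r e ≠ 0).card := by
  set E := univ.filter fun e : Sym2 U => dl X Y r e ≠ 0 with hE
  have hmem : ∀ a b : U, s(a, b) ∈ E ↔ (X.Adj a b ∧ a ∈ Y ∧ b ∈ Y) ∧ r a ≠ r b := by
    intro a b
    rw [hE, Finset.mem_filter, dl_mk]
    by_cases h : X.Adj a b ∧ a ∈ Y ∧ b ∈ Y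
    · rw [if_pos h, z2_add_ne]
      exact ⟨fun h1 => ⟨h, h1.2⟩, fun h1 => ⟨Finset.mem_univ _, h1.2⟩⟩
    · rw [if_neg h]
      exact ⟨fun h1 => absurd rfl h1.2, fun h1 => absurd h1.1 h⟩
  by_contra hlt
  push Not at hlt
  -- a vertex in `T` and a vertex outside
  obtain ⟨i₀, j₀, hi₀Y, hj₀Y, hi₀, hj₀⟩ : ∃ i₀ j₀ : U, i₀ ∈ Y ∧ j₀ ∈ Y ∧ r i₀ ≠ 0 ∧ r j₀ = 0 := by
    rcases z2c (r i) with h1 | h1
    · refine ⟨j, i, hj, hi, ?_, h1⟩
      intro h2
      exact hij (h1.trans h2.symm)
    · rcases z2c (r j) with h2 | h2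
      · refine ⟨i, j, hi, hj, ?_, h2⟩
        rw [h1]; decide
      · exact absurd (h1.trans h2.symm) hij
  set T := Y.filter fun a : U => r a ≠ 0 with hT
  have hTm : ∀ a, a ∈ T ↔ a ∈ Y ∧ r a ≠ 0 := fun a => by rw [hT, Finset.mem_filter]
  set S := T.filter fun a => ∃ b, s(a, b) ∈ E with hS
  have hSE : S.card ≤ E.card := by
    have h1 : ∀ a ∈ S, ∃ b, s(a, b) ∈ E := fun a ha => (Finset.mem_filter.mp ha).2
    choose! g hg using h1
    refine Finset.card_le_card_of_injOn (fun a => s(a, g a)) (fun a ha => hg a ha) ?_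
    intro a ha b hb hab
    have ha' := ((hTm a).mp (Finset.mem_filter.mp ha).1).2
    have hb' := ((hTm b).mp (Finset.mem_filter.mp hb).1).2
    have h2 := ((hmem _ _).mp (hg b hb)).2
    rcases Sym2.eq_iff.mp hab with h | h
    · exact h.1
    · exfalso
      rw [← h.1] at h2
      apply h2
      rcases z2c (r a) with h3 | h3
      · exact absurd h3 ha'
      · rcases z2c (r b) with h4 | h4
        · exact absurd h4 hb'
        · rw [h3, h4]
  have hTS : T ⊆ S := by
    by_contra hcon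
    have h1 : (T \ S).Nonempty := Finset.sdiff_nonempty.mpr hcon
    obtain ⟨a, ha, b, hb, hab⟩ := hG.conn S (hSE.trans_lt hlt) (T \ S)
      (Finset.sdiff_subset_sdiff (Finset.filter_subset _ _) (Finset.Subset.refl _)) h1
      ⟨j₀, by
        rw [Finset.mem_sdiff, Finset.mem_sdiff, Finset.mem_sdiff]
        refine ⟨⟨hj₀Y, fun h => ?_⟩, fun h => ?_⟩
        · exact ((hTm j₀).mp (Finset.mem_filter.mp h).1).2 hj₀
        · exact ((hTm j₀).mp h.1).2 hj₀⟩
    rw [Finset.mem_sdiff] at ha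
    rw [Finset.mem_sdiff, Finset.mem_sdiff, Finset.mem_sdiff] at hb
    have hbT : b ∉ T := fun h => hb.2 ⟨h, hb.1.2⟩
    have hb0 : r b = 0 := by
      by_contra h
      exact hbT ((hTm b).mpr ⟨hb.1.1, h⟩)
    apply ha.2
    rw [hS, Finset.mem_filter]
    refine ⟨ha.1, b, (hmem _ _).mpr ⟨⟨hab, ((hTm a).mp ha.1).1, hb.1.1⟩, ?_⟩⟩
    rw [hb0]
    exact ((hTm a).mp ha.1).2
  have hTc : T.card < Q := ((Finset.card_le_card hTS).trans hSE).trans_lt hlt
  -- every vertex of `T` has a neighbour outside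
  have hout : ∀ b ∈ T, ∃ c, (c ∈ Y ∧ c ∉ T) ∧ X.Adj b c := by
    intro b hbT
    by_contra hcon
    push Not at hcon
    have h1 := hG.deg b ((hTm b).mp hbT).1
    have h2 : (Y.filter fun c => X.Adj b c) ⊆ T := by
      intro c hc
      by_contra h3
      exact hcon c ⟨(Finset.mem_filter.mp hc).1, h3⟩ (Finset.mem_filter.mp hc).2
    have h3 := Finset.card_le_card h2
    omega
  choose! g hg1 hg2 using hout
  have hi₀T : i₀ ∈ T := (hTm i₀).mpr ⟨hi₀Y, hi₀⟩
  have hfin : (Y.filter fun c => X.Adj i₀ c).card ≤ E.card := by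
    refine Finset.card_le_card_of_injOn (fun b => if b ∈ T then s(b, g b) else s(i₀, b)) ?_ ?_
    · intro b hb
      have hb' : X.Adj i₀ b := (Finset.mem_filter.mp hb).2
      have hbY : b ∈ Y := (Finset.mem_filter.mp hb).1
      simp only
      split_ifs with h
      · refine (hmem _ _).mpr ⟨⟨hg2 b h, hbY, (hg1 b h).1⟩, ?_⟩
        intro h1
        exact (hg1 b h).2 ((hTm _).mpr ⟨(hg1 b h).1, h1 ▸ ((hTm b).mp h).2⟩)
      · refine (hmem _ _).mpr ⟨⟨hb', hi₀Y, hbY⟩, ?_⟩
        intro h1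
        exact h ((hTm _).mpr ⟨hbY, h1 ▸ hi₀⟩)
    · intro b hb c hc hbc
      have hb' : X.Adj i₀ b := (Finset.mem_filter.mp hb).2
      have hc' : X.Adj i₀ c := (Finset.mem_filter.mp hc).2
      simp only at hbc
      split_ifs at hbc with h1 h2 h2
      · rcases Sym2.eq_iff.mp hbc with h | h
        · exact h.1
        · exact absurd (h.1 ▸ h1) (hg1 c h2).2
      · rcases Sym2.eq_iff.mp hbc with h | h
        · exact absurd h.1.symm hb'.ne
        · exact absurd (h.1 ▸ h1) h2
      · rcases Sym2.eq_iff.mp hbc with h | h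
        · exact absurd h.1 hc'.ne
        · exact absurd (h.2 ▸ h2) h1
      · rcases Sym2.eq_iff.mp hbc with h | h
        · exact h.2
        · exact absurd h.1 hc'.ne
  have hdeg := hG.deg i₀ hi₀Y
  omega

/-- the labels inside a set cancel -/
private theorem sum_sym_zero (s : Finset V) (y : V → V → Ch U) (hs : ∀ a b, y a b = y b a)
    (h0 : ∀ a, y a a = 0) : ∑ a ∈ s, ∑ b ∈ s, y a b = 0 := by
  induction s using Finset.induction_on with
  | empty => simp
  | insert a s ha ih =>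
    rw [Finset.sum_insert ha, Finset.sum_insert ha, h0, zero_add]
    have h1 : ∀ x ∈ s, ∑ b ∈ insert a s, y x b = y a x + ∑ b ∈ s, y x b := by
      intro x _
      rw [Finset.sum_insert ha, hs]
    rw [Finset.sum_congr rfl h1, Finset.sum_add_distrib, ih, add_zero, ch_add_self]

/-- a weighted sum of stars is a cut -/
private theorem dl_push (f : V → U) (s : Finset V) (t : V → ZMod 2) :
    dl X Y (fun i => ∑ a ∈ s, if f a = i then t a else 0) =
      ∑ a ∈ s, t a • star X Y (f a) := by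
  funext e
  unfold dl
  rw [Finset.sum_apply]
  have h1 : ∀ i : U, (∑ a ∈ s, if f a = i then t a else 0) * star X Y i e =
      ∑ a ∈ s, if f a = i then t a * star X Y (f a) e else 0 := by
    intro i
    rw [Finset.sum_mul]
    refine Finset.sum_congr rfl fun a _ => ?_
    by_cases h : f a = i
    · rw [if_pos h, if_pos h, h]
    · rw [if_neg h, if_neg h, zero_mul]
  rw [Finset.sum_congr rfl fun i _ => h1 i, Finset.sum_comm]
  refine Finset.sum_congr rfl fun a _ => ?_
  rw [Finset.sum_ite_eq Finset.univ (f a), if_pos (Finset.mem_univ _)]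
  rfl

/-- the parities of a set of vertices of `F` -/
noncomputable def rr {F : SimpleGraph V} (H : HomX X Y F) (Z : Set V) (i : U) : ZMod 2 :=
  ∑ a ∈ univ.filter (fun a => a ∈ Z), (if H.f a = i then H.t a else 0)

private theorem dl_fin {F : SimpleGraph V} (H : HomX X Y F) (S : Finset V) :
    dl X Y (fun i => ∑ a ∈ S, if H.f a = i then H.t a else 0) = ∑ a ∈ S, ∑ b ∈ Sᶜ, H.y a b := by
  rw [dl_push]
  have h3 : ∀ a ∈ S, H.t a • star X Y (H.f a) =
      ∑ b ∈ S, H.y a b + ∑ b ∈ Sᶜ, H.y a b := by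
    intro a _
    rw [← H.eqn a, Finset.sum_add_sum_compl]
  rw [Finset.sum_congr rfl h3, Finset.sum_add_distrib, sum_sym_zero _ H.y H.y_symm, zero_add]
  intro a
  by_contra h
  exact F.loopless.irrefl a (H.y_adj a a h)

theorem dl_cut {F : SimpleGraph V} (H : HomX X Y F) (Z : Set V) :
    dl X Y (rr H Z) = ∑ a ∈ univ.filter (fun a => a ∈ Z), ∑ b ∈ univ.filter (fun b => b ∉ Z),
      H.y a b := by
  have h1 := dl_fin H (univ.filter (fun a => a ∈ Z))
  have h2 : (univ.filter (fun a => a ∈ Z))ᶜ = univ.filter (fun b : V => b ∉ Z) := by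
    ext b
    simp
  rw [h2] at h1
  exact h1

theorem cut_const (hG : Good X Y Q) {F : SimpleGraph V} (H : HomX X Y F)
    (hf : ∀ a b, F.Adj a b → X.Adj (H.f a) (H.f b)) (S : Finset V) (hS : cd F S < Q) (i j : U)
    (hi : i ∈ Y) (hj : j ∈ Y) :
    ∑ a ∈ S, (if H.f a = i then H.t a else 0) = ∑ a ∈ S, (if H.f a = j then H.t a else 0) := by
  by_contra hne
  have h1 := card_dl hG (fun i => ∑ a ∈ S, if H.f a = i then H.t a else 0) hi hj hne
  have h2 : dl X Y (fun i => ∑ a ∈ S, if H.f a = i then H.t a else 0) =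
      ∑ a ∈ S, ∑ b ∈ Sᶜ, H.y a b := dl_fin H S
  have h3 : (univ.filter fun e : Sym2 U =>
      dl X Y (fun i => ∑ a ∈ S, if H.f a = i then H.t a else 0) e ≠ 0).card ≤ cd F S := by
    unfold cd
    refine (Finset.card_le_card ?_).trans (Finset.card_image_le
      (s := univ.filter fun p : V × V => F.Adj p.1 p.2 ∧ p.1 ∈ S ∧ p.2 ∉ S)
      (f := fun p : V × V => s(H.f p.1, H.f p.2)))
    intro e he
    have he' := (Finset.mem_filter.mp he).2
    rw [h2, Finset.sum_apply] at he'
    obtain ⟨a, ha, h4⟩ := Finset.exists_ne_zero_of_sum_ne_zero he'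
    rw [Finset.sum_apply] at h4
    obtain ⟨b, hb, h5⟩ := Finset.exists_ne_zero_of_sum_ne_zero h4
    have h6 : H.y a b ≠ 0 := fun h => h5 (by rw [h]; rfl)
    have hab := H.y_adj a b h6
    have hX := hf a b hab
    rw [Finset.mem_image]
    refine ⟨(a, b), Finset.mem_filter.mpr ⟨Finset.mem_univ _, hab, ha, Finset.mem_compl.mp hb⟩, ?_⟩
    have h7 := (H.y_star a b).mem e h5
    have h8 := (H.y_star b a).mem e (by rw [← H.y_symm a b]; exact h5)
    exact ((Sym2.mem_and_mem_iff hX.ne).mp ⟨h7, h8⟩).symm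
  omega

/-- a graph without an immersion of `K_k` contains no homological copy of `X` over `Y` over a
homomorphism -/
theorem no_copy {k : ℕ} (hQ1 : k ≤ Q) (hQ2 : (k - 1) ^ 2 ≤ Q) (hG : Good X Y Q)
    {F : SimpleGraph V} (hF : IsEmpty (CliqueImm k F)) (H : HomX X Y F)
    (hf : ∀ a b, F.Adj a b → X.Adj (H.f a) (H.f b)) : False := by
  obtain ⟨i₀, hi₀⟩ := hG.ne
  have : Nonempty {i // i ∈ Y} := ⟨⟨i₀, hi₀⟩⟩
  obtain ⟨P, hP1, hP2⟩ := exists_class F
    (fun a (i : {i // i ∈ Y}) => if H.f a = i.1 then H.t a else 0) Q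
    (fun S hS i j => cut_const hG H hf S hS i.1 j.1 i.2 j.2) (fun i => by
      rw [← sum_filter]
      exact H.total i.1 i.2)
  have hsurj : ∀ i ∈ Y, ∃ a ∈ P, H.f a = i := by
    intro i hi
    by_contra hcon
    push Not at hcon
    have h1 := hP2 ⟨i, hi⟩
    rw [sum_eq_zero fun a ha => if_neg (hcon a ha)] at h1
    exact zero_ne_one h1
  have hcard : k ≤ P.card := by
    have h1 : Y ⊆ P.image H.f := by
      intro i hi
      obtain ⟨a, ha, rfl⟩ := hsurj i hi
      exact mem_image_of_mem _ ha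
    have h2 := (card_le_card h1).trans card_image_le
    have h3 := hG.deg i₀ hi₀
    have h4 := card_filter_le Y (fun j => X.Adj i₀ j)
    omega
  exact hF.false (cliqueImm_of_class F k P hcard
    (fun a ha b hb S h1 h2 => hQ2.trans (hP1 a ha b hb S h1 h2))).some

end Pool.Agent.HomW
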