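import Pool.Agent.HomI.Cls

/-!
# Graphs with thin hierarchies

Decompositions of the vertex set of a graph along cuts whose crossing edges are all near a few
vertices, down to parts which induce graphs of a given class.
-/

set_option autoImplicit false

namespace Pool.Agent.HomW

open Pool.Agent.HomV Pool.Agent.HomI

variable {V : Type}

/-- there is a walk of length at most `d` from `a` to `b` -/
def Near (F : SimpleGraph V) (d : ℕ) (a b : V) : Prop := ∃ w : F.Walk a b, w.length ≤ d

/-- there are at most `k` vertices such that every edge between `Y` and its complement has an end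
at distance at most `k` from one of them -/
def ThinCut (k : ℕ) (F : SimpleGraph V) (Y : Set V) : Prop :=
  ∃ C : Finset V, C.card ≤ k ∧
    ∀ a ∈ Y, ∀ b ∉ Y, F.Adj a b → ∃ c ∈ C, Near F k c a ∨ Near F k c b

/-- the vertex set `Y` can be divided into two disjoint parts, these again into two disjoint parts
and so on, until all parts induce graphs with the property `P`, and all sets in this hierarchy give
thin cuts -/
inductive Dec (P : SimpleGraph V → Prop) (k : ℕ) (F : SimpleGraph V) : Set V → Prop
  | leaf (Y : Set V) (h : P (ind F Y)) (hc : ThinCut k F Y) : Dec P k F Y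
  | node (Y Z : Set V) (hY : Dec P k F Y) (hZ : Dec P k F Z) (hd : Disjoint Y Z)
      (hc : ThinCut k F (Y ∪ Z)) : Dec P k F (Y ∪ Z)

/-- the closure of the property `P` under gluing along complete subgraphs -/
inductive Glue (P : SimpleGraph V → Prop) : SimpleGraph V → Prop
  | base (F : SimpleGraph V) (h : P F) : Glue P F
  | glue (F : SimpleGraph V) (A B : Set V) (hAB : A ∪ B = Set.univ)
      (hadj : ∀ u v, F.Adj u v → (u ∈ A ∧ v ∈ A) ∨ (u ∈ B ∧ v ∈ B))
      (hcomplete : ∀ u ∈ A ∩ B, ∀ v ∈ A ∩ B, u ≠ v → F.Adj u v)
      (hA : Glue P (ind F A)) (hB : Glue P (ind F B)) : Glue P F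

end Pool.Agent.HomW
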