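import Pool.Agent.HomW.Def
import Pool.Agent.HomV.ChDef

/-!
# The isoperimetric property of the base graph
-/

set_option autoImplicit false

namespace Pool.Agent.HomW

open Finset Classical Pool.Agent.HomV

/-- `Y` is good, and (`n` times) for any `k` vertices more than two thirds of `Y` form again a good
set, all of whose vertices have distance greater than `k` from these vertices -/
def Iso {U : Type} [Fintype U] (X : SimpleGraph U) (Q k : ℕ) : ℕ → Finset U → Prop
  | 0, Y => Good X Y Q
  | n + 1, Y => Good X Y Q ∧ ∀ T : Finset U, T.card ≤ k → ∃ Y' ⊆ Y,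
      3 * (Y \ Y').card < Y.card ∧ (∀ c ∈ T, ∀ i ∈ Y', ¬ Near X k c i) ∧ Iso X Q k n Y'

theorem Iso.good {U : Type} [Fintype U] {X : SimpleGraph U} {Q k : ℕ} :
    ∀ {n : ℕ} {Y : Finset U}, Iso X Q k n Y → Good X Y Q
  | 0, _, h => h
  | _ + 1, _, h => h.1

end Pool.Agent.HomW
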